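import Mathlib

set_option maxHeartbeats 400000

open Finset Polynomial

namespace Pool.Agent.Results.MP_9fb898_nt.Families

/-- The `n`th Pascalian polynomial in `ℚ[z]`. -/
noncomputable def P (n : ℕ) : ℚ[X] :=
  ∑ k ∈ range (n + 1), C (n.choose ((n - k) / 2) : ℚ) * X ^ (n - k)

def S {K : Type*} [CommRing K] (n N : ℕ) (z : K) : K :=
  ∑ j ∈ range N, (n.choose (j / 2) : K) * z ^ j

def Q {K : Type*} [CommRing K] (n N : ℕ) (z : K) : K :=
  ∑ i ∈ range N, (n.choose i : K) * (z ^ 2) ^ i

variable {K : Type*} [CommRing K]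

theorem S_succ (n N : ℕ) (z : K) : S n (N + 1) z = S n N z + (n.choose (N / 2) : K) * z ^ N :=
  sum_range_succ _ _

theorem S_pascal (n N : ℕ) (z : K) : S (n + 1) (N + 2) z = S n (N + 2) z + z ^ 2 * S n N z := by
  induction N with
  | zero => simp [S, sum_range_succ]
  | succ N ih =>
    have e : (N + 2) / 2 = N / 2 + 1 := by omega
    rw [show N + 1 + 2 = (N + 2) + 1 from rfl, S_succ (n + 1), S_succ n (N + 2), S_succ n N, ih, e,
      Nat.choose_succ_succ']
    push_cast
    ring

theorem S_rec (n : ℕ) (z : K) : S (n + 1) (n + 2) z =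
    (1 + z ^ 2) * S n (n + 1) z + (n.choose (n / 2) : K) * z ^ (n + 1) * (1 - z) := by
  have e : n.choose ((n + 1) / 2) = n.choose (n / 2) := Nat.choose_symm_of_eq_add (by omega)
  rw [S_pascal, show n + 2 = (n + 1) + 1 from rfl, S_succ n (n + 1), e, S_succ n n]
  ring

theorem S_even (n N : ℕ) (z : K) : S n (2 * N) z = (1 + z) * Q n N z := by
  induction N with
  | zero => simp [S, Q]
  | succ N ih =>
    have e1 : (2 * N + 1) / 2 = N := by omega
    have e2 : (2 * N) / 2 = N := by omega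
    rw [show 2 * (N + 1) = (2 * N + 1) + 1 from rfl, S_succ, S_succ, ih, e1, e2, Q, Q,
      sum_range_succ]
    ring

theorem aeval_S {L : Type*} [CommRing L] (n N : ℕ) (z : L) :
    aeval z (S n N (X : ℤ[X])) = S n N z := by
  simp [S, map_sum]


theorem map_S {L : Type*} [CommRing L] (n N : ℕ) :
    (S n N (X : ℤ[X])).map (Int.castRingHom L) = S n N (X : L[X]) := by
  simp [S, Polynomial.map_sum]

theorem P_eq (n : ℕ) : P n = (S n (n + 1) (X : ℤ[X])).map (Int.castRingHom ℚ) := by
  rw [map_S]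
  unfold P S
  simp only [map_natCast]
  exact sum_flip (fun j => (n.choose (j / 2) : ℚ[X]) * X ^ j)

theorem coeff_S (n N k : ℕ) :
    (S n N (X : ℤ[X])).coeff k = if k < N then (n.choose (k / 2) : ℤ) else 0 := by
  simp [S, finset_sum_coeff, coeff_natCast_mul, coeff_X_pow]

theorem pos (m : ℕ) (x : ℝ) : 0 < S (2 * m) (2 * m + 1) x := by
  rcases le_total (-1) x with hx | hx
  · by_cases h0 : x = 0
    · subst h0
      simp [S, sum_range_succ']
    · rw [S_succ, S_even]
      have a : 0 ≤ Q (2 * m) m x := sum_nonneg fun i _ => by positivity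
      have b : (0 : ℝ) < (2 * m).choose (2 * m / 2) := by
        exact_mod_cast Nat.choose_pos (Nat.div_le_self _ _)
      have c : 0 < x ^ (2 * m) := by rw [pow_mul]; positivity
      have d : 0 ≤ 1 + x := by linarith
      positivity
  · have key : ∀ N, N ≤ m → 0 < S (2 * m) (2 * N + 1) x := by
      intro N
      induction N with
      | zero => intro _; simp [S]
      | succ N ih =>
        intro hN
        have e1 : (2 * N + 1) / 2 = N := by omega
        have e2 : (2 * N + 1 + 1) / 2 = N + 1 := by omega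
        rw [show 2 * (N + 1) + 1 = (2 * N + 1 + 1) + 1 from rfl, S_succ, S_succ, e1, e2]
        have a := ih (by omega)
        have b : ((2 * m).choose N : ℝ) ≤ (2 * m).choose (N + 1) := by
          exact_mod_cast Nat.choose_le_succ_of_lt_half_left (by omega)
        have c : (0 : ℝ) ≤ (2 * m).choose N := Nat.cast_nonneg _
        have d : 0 ≤ x ^ (2 * N) := by rw [pow_mul]; positivity
        have e : 0 ≤ x * (((2 * m).choose N : ℝ) + (2 * m).choose (N + 1) * x) :=
          mul_nonneg_of_nonpos_of_nonpos (by linarith) (by nlinarith)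
        have f := mul_nonneg d e
        rw [pow_succ, pow_succ, pow_succ]
        nlinarith
    exact key m le_rfl

theorem even_deg (g : ℝ[X]) : (∀ x, g.eval x ≠ 0) → Even g.natDegree := by
  induction g using WfDvdMonoid.induction_on_irreducible with
  | zero => intro _; simp
  | unit u hu => intro _; rw [natDegree_eq_zero_of_isUnit hu]; simp
  | mul a i ha hi ih =>
    intro h
    rw [natDegree_mul hi.ne_zero ha]
    have h1 := hi.natDegree_le_two
    have h2 := hi.natDegree_pos
    have h3 : i.natDegree ≠ 1 := by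
      intro e
      obtain ⟨x, hx⟩ := exists_root_of_degree_eq_one (p := i)
        (by rw [degree_eq_natDegree hi.ne_zero, e]; rfl)
      exact h x (by rw [eval_mul, hx.eq_zero, zero_mul])
    have h4 : i.natDegree = 2 := by omega
    rw [h4]
    exact even_two.add (ih fun x hx => h x (by rw [eval_mul, hx, mul_zero]))

theorem low (z : ℂ) (hz : ‖z‖ ≤ 1 / 4) (n : ℕ) : (1 / 2 : ℝ) ^ n ≤ ‖S n (n + 1) z‖ := by
  induction n with
  | zero => simp [S]
  | succ n ih =>
    rw [show n + 1 + 1 = n + 2 from rfl, S_rec]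
    have a : 15 / 16 ≤ ‖1 + z ^ 2‖ := by
      have h1 := norm_sub_norm_le (1 : ℂ) (-z ^ 2)
      rw [norm_one, norm_neg, norm_pow, sub_neg_eq_add] at h1
      have := pow_le_pow_left₀ (norm_nonneg z) hz 2
      linarith
    have b : ‖1 - z‖ ≤ 5 / 4 := by
      have := norm_sub_le (1 : ℂ) z
      rw [norm_one] at this
      linarith
    have c : (n.choose (n / 2) : ℝ) ≤ 2 ^ n := by exact_mod_cast Nat.choose_le_two_pow n (n / 2)
    have d : ‖(n.choose (n / 2) : ℂ) * z ^ (n + 1) * (1 - z)‖ ≤ 2 ^ n * (1 / 4) ^ (n + 1) * (5 / 4) := by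
      rw [norm_mul, norm_mul, norm_pow, Complex.norm_natCast]
      gcongr
    have e : (2 : ℝ) ^ n * (1 / 4) ^ (n + 1) * (5 / 4) = (1 / 2) ^ n * (5 / 16) := by
      rw [pow_succ, ← mul_assoc, ← mul_pow]; norm_num; ring
    have f := norm_sub_norm_le ((1 + z ^ 2) * S n (n + 1) z)
      (-((n.choose (n / 2) : ℂ) * z ^ (n + 1) * (1 - z)))
    rw [norm_neg, sub_neg_eq_add, norm_mul] at f
    have g : 15 / 16 * (1 / 2 : ℝ) ^ n ≤ ‖1 + z ^ 2‖ * ‖S n (n + 1) z‖ := by gcongr
    have h : (0 : ℝ) ≤ (1 / 2) ^ n := by positivity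
    rw [pow_succ]
    linarith

theorem red (m p : ℕ) (hm : m ≠ 0) (hp : p.Prime) (h2 : ¬ p ^ 2 ∣ (2 * m).choose m)
    (H : ∀ g h : ℤ[X], S (2 * m) (2 * m + 1) X = g * h → Even g.natDegree → g.natDegree ≠ 0 →
      (g.map (Int.castRingHom (ZMod p))).natDegree = g.natDegree → False) :
    Irreducible (P (2 * m)) := by
  set A : ℤ[X] := S (2 * m) (2 * m + 1) X with hA
  have c0 : A.coeff 0 = 1 := by rw [hA, coeff_S]; simp
  have ct : A.coeff (2 * m) = (2 * m).choose m := by rw [hA, coeff_S]; simp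
  have dA : A.natDegree = 2 * m := by
    refine natDegree_eq_of_le_of_coeff_ne_zero (natDegree_le_iff_coeff_eq_zero.2 fun k hk => ?_) ?_
    · rw [hA, coeff_S, if_neg (by omega)]
    · rw [ct]; exact_mod_cast (Nat.choose_pos (by omega)).ne'
  have hu : ∀ g h : ℤ[X], A = g * h → g.natDegree = 0 → IsUnit g := by
    intro g h e hg
    rw [eq_C_of_natDegree_eq_zero hg]
    rw [e, mul_coeff_zero] at c0
    exact isUnit_C.2 (IsUnit.of_mul_eq_one _ c0)
  have prim : A.IsPrimitive := fun r ⟨h, e⟩ => isUnit_C.1 (hu _ h e (natDegree_C r))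
  rw [P_eq, ← IsPrimitive.Int.irreducible_iff_irreducible_map_cast prim]
  have one : ∀ g h : ℤ[X], A = g * h → ¬ (p : ℤ) ∣ g.leadingCoeff → IsUnit g := by
    intro g h e hg
    by_contra c
    refine H g h e ?_ (fun d => c (hu g h e d)) (natDegree_map_of_leadingCoeff_ne_zero _ ?_)
    · rw [← natDegree_map_eq_of_injective (f := Int.castRingHom ℝ) (RingHom.injective_int _)]
      refine even_deg _ fun x hx => (pos m x).ne' ?_
      rw [← aeval_S, ← hA, e, map_mul, aeval_def, ← eval_map]
      exact mul_eq_zero_of_left hx _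
    · rw [eq_intCast, Ne, ZMod.intCast_zmod_eq_zero_iff_dvd]
      exact hg
  refine ⟨fun u => by have := natDegree_eq_zero_of_isUnit u; omega, fun g h e => ?_⟩
  by_cases a : (p : ℤ) ∣ g.leadingCoeff
  · by_cases b : (p : ℤ) ∣ h.leadingCoeff
    · exfalso
      apply h2
      have := mul_dvd_mul a b
      rw [← leadingCoeff_mul, ← e, leadingCoeff, dA, ct, ← sq] at this
      exact_mod_cast this
    · exact Or.inr (one h g (by rw [e, mul_comm]) b)
  · exact Or.inl (one g h e a)

theorem base {L : Type*} [CommRing L] (p n N : ℕ) [CharP L p] (hN : N ≠ 0)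
    (h : ∀ i, 0 < i → i < N → p ∣ n.choose i) (w : L) : S n (2 * N) w = 1 + w := by
  obtain ⟨M, rfl⟩ := Nat.exists_eq_succ_of_ne_zero hN
  rw [S_even, Q, sum_range_succ', sum_eq_zero]
  · simp
  · intro i hi
    have := mem_range.1 hi
    rw [(CharP.cast_eq_zero_iff L p _).2 (h _ (by omega) (by omega)), zero_mul]

theorem two_pow (a : ℕ) : Irreducible (P (2 ^ (a + 1))) := by
  have e : 2 ^ (a + 1) = 2 * 2 ^ a := by ring
  have h0 : 0 < 2 ^ a := by positivity
  have hd : ∀ i, 0 < i → i ≤ 2 ^ a → 2 ∣ (2 * 2 ^ a).choose i := fun i h1 h2 => by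
    rw [← e]; exact Nat.Prime.dvd_choose_pow Nat.prime_two h1.ne' (by omega)
  rw [e]
  refine red (2 ^ a) 2 h0.ne' Nat.prime_two ?_ fun g h e1 ev nz hdeg => ?_
  · have := Nat.factorization_choose_prime_pow_add_factorization (n := a + 1) (k := 2 ^ a)
      Nat.prime_two (by omega) h0.ne'
    rw [Nat.Prime.factorization_pow Nat.prime_two, Finsupp.single_eq_same, e] at this
    rw [Nat.Prime.pow_dvd_iff_le_factorization Nat.prime_two (Nat.choose_pos (by omega)).ne']
    omega
  · have m1 := congrArg (Polynomial.map (Int.castRingHom (ZMod 2))) e1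
    rw [map_S, S_succ, base 2 _ _ h0.ne' (fun i h1 h2 => hd i h1 h2.le),
      (CharP.cast_eq_zero_iff _ 2 _).2 (hd _ (by omega) (by omega)), zero_mul, add_zero,
      Polynomial.map_mul, add_comm, ← C_1] at m1
    have := natDegree_le_of_dvd (Dvd.intro _ m1.symm) (X_add_C_ne_zero _)
    rw [natDegree_X_add_C, hdeg] at this
    obtain ⟨r, hr⟩ := ev
    omega

theorem prime_succ (p : ℕ) (hp : p.Prime) (h29 : 24 ≤ p) : Irreducible (P (p + 1)) := by
  haveI := Fact.mk hp
  obtain ⟨m, hm⟩ := hp.odd_of_ne_two (by omega)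
  have e : p + 1 = 2 * (m + 1) := by omega
  rw [e]
  refine red (m + 1) p (by omega) hp ?_ fun g h e1 ev nz hdeg => ?_
  · rw [Nat.Prime.pow_dvd_iff_le_factorization hp (Nat.choose_pos (by omega)).ne']
    have := Nat.factorization_choose_le_one (p := p) (n := 2 * (m + 1)) (k := m + 1) (by nlinarith)
    omega
  rw [← e] at e1
  have m1 := congrArg (Polynomial.map (Int.castRingHom (ZMod p))) e1
  have b0 : S p (p + 1) (X : (ZMod p)[X]) = 1 + X := by
    rw [e]; exact base p _ _ (by omega) (fun i h1 h2 => hp.dvd_choose_self h1.ne' (by omega)) _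
  rw [map_S, show p + 1 + 1 = p + 2 from rfl, S_rec, b0,
    (CharP.cast_eq_zero_iff _ p _).2 (hp.dvd_choose_self (by omega) (by omega)), zero_mul,
    zero_mul, add_zero, Polynomial.map_mul] at m1
  have d3 : ((1 + X ^ 2) * (1 + X) : (ZMod p)[X]).natDegree = 3 := by compute_degree!
  have n0 : ((1 + X ^ 2) * (1 + X) : (ZMod p)[X]) ≠ 0 := by
    intro c; rw [c] at d3; simp at d3
  rw [m1] at d3 n0
  rw [natDegree_mul (left_ne_zero_of_mul n0) (right_ne_zero_of_mul n0), hdeg] at d3
  obtain ⟨r, hr⟩ := ev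
  have g2 : g.natDegree = 2 := by omega
  obtain ⟨u, v, huv⟩ : ∃ u v, h.map (Int.castRingHom (ZMod p)) = C u * X + C v :=
    ⟨_, _, eq_X_add_C_of_natDegree_le_one (by omega)⟩
  obtain ⟨a, b, c, hg⟩ : ∃ a b c : ℤ, g = C a * X ^ 2 + C b * X + C c :=
    ⟨g.coeff 2, g.coeff 1, g.coeff 0, by
      conv_lhs => rw [g.as_sum_range_C_mul_X_pow' (n := 3) (by omega)]
      simp only [sum_range_succ, sum_range_zero]
      ring⟩
  have hc : c * c = 1 := by
    have := congrArg (fun q => q.coeff 0) e1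
    simp only [coeff_S, mul_coeff_zero, hg] at this
    have t : c * h.coeff 0 = 1 := by simpa using this.symm
    rcases Int.eq_one_or_neg_one_of_mul_eq_one t with t | t <;> simp [t]
  have ev : ∀ t : ZMod p, (1 + t ^ 2) * (1 + t) = (a * t ^ 2 + b * t + c) * (u * t + v) := by
    intro t
    have := congrArg (eval t) m1
    rw [huv, hg] at this
    simpa using this
  have nd : ∀ k : ℤ, (k : ZMod p) = 0 → |k| < 24 → k = 0 := fun k h1 h2 =>
    Int.eq_zero_of_abs_lt_dvd ((ZMod.intCast_zmod_eq_zero_iff_dvd k p).1 h1) (by omega)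
  have s6 : (6 : ZMod p) ≠ 0 := fun c => by
    have := nd 6 (by exact_mod_cast c) (by norm_num)
    omega
  have hc' : (c : ZMod p) * c = 1 := by exact_mod_cast congrArg (Int.cast : ℤ → ZMod p) hc
  have q0 : (c : ZMod p) * v = 1 := by linear_combination -ev 0
  have q2 : (a : ZMod p) * v + b * u = 1 := mul_left_cancel₀ s6 (by
    linear_combination 6 * ev 0 - 3 * ev 1 - 3 * ev (-1))
  have q3 : (a : ZMod p) * u = 1 := mul_left_cancel₀ s6 (by
    linear_combination -ev 2 + 3 * ev 1 - 3 * ev 0 + ev (-1))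
  have q1 : (b : ZMod p) * v + c * u = 1 := by
    linear_combination -ev 1 - q0 - q2 - q3
  have hv : v = c := by linear_combination c * q0 - v * hc'
  have hu : u = c - b := by
    rw [hv] at q1
    linear_combination c * q1 - (u + b) * hc'
  rw [hv, hu] at q2
  rw [hu] at q3
  obtain ⟨w, hw⟩ := Complex.exists_root (f := g.map (Int.castRingHom ℂ)) (by
    rw [degree_map_eq_of_injective (RingHom.injective_int _)]
    exact natDegree_pos_iff_degree_pos.1 (by omega))
  have hw1 : S (p + 1) (p + 1 + 1) w = 0 := by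
    rw [← aeval_S, e1, map_mul, aeval_def, ← eval_map]
    exact mul_eq_zero_of_left hw _
  have hw2 : (a : ℂ) * w ^ 2 + b * w + c = 0 := by
    have := hw.eq_zero
    rw [hg] at this
    simpa using this
  have hy : w.im ≠ 0 := by
    intro c
    have r1 : w = (w.re : ℂ) := Complex.ext (by simp) (by simp [c])
    have r2 := pos (m + 1) w.re
    rw [← e] at r2
    rw [r1] at hw1
    apply r2.ne'
    simp only [S] at hw1 ⊢
    exact_mod_cast hw1
  have big : 1 / 16 < w.re ^ 2 + w.im ^ 2 := by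
    have : 1 / 4 < ‖w‖ := by
      by_contra c
      have := low w (not_lt.1 c) (p + 1)
      rw [hw1, norm_zero] at this
      exact absurd this (not_le.2 (by positivity))
    have t : ‖w‖ ^ 2 = w.re ^ 2 + w.im ^ 2 := by
      rw [Complex.sq_norm, Complex.normSq_apply]; ring
    nlinarith
  have re := congrArg Complex.re hw2
  have im := congrArg Complex.im hw2
  simp [sq] at re im
  have hb : (b : ℝ) = -2 * a * w.re := mul_right_cancel₀ hy (by linarith)
  have hcr : (c : ℝ) = a * (w.re ^ 2 + w.im ^ 2) := by rw [hb] at re; linarith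
  have hcc : (c : ℝ) * c = 1 := by exact_mod_cast hc
  have y2 : 0 < w.im ^ 2 := by positivity
  have A1 : ((a : ℝ) * c) * (w.re ^ 2 + w.im ^ 2) = 1 := by
    rw [← hcc]; nth_rewrite 3 [hcr]; ring
  have A0 : (0 : ℝ) < a * c := by
    by_contra t
    nlinarith
  have A16 : (a : ℝ) * c < 16 := by nlinarith
  have B2 : ((b : ℝ) * c) ^ 2 < 4 * (a * c) := by
    have t1 : ((b : ℝ) * c) ^ 2 = 4 * (a * c) ^ 2 * w.re ^ 2 := by rw [hb]; ring
    have t2 : 0 < ((a : ℝ) * c) ^ 2 * w.im ^ 2 := by positivity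
    nlinarith
  have A0' : 0 < a * c := by exact_mod_cast A0
  have A16' : a * c < 16 := by exact_mod_cast A16
  have B2' : (b * c) ^ 2 < 4 * (a * c) := by exact_mod_cast B2
  have B8 : -8 < b * c ∧ b * c < 8 := by constructor <;> nlinarith
  have fac : ((b * c : ℤ) : ZMod p) * ((a * c - b * c + 1 : ℤ) : ZMod p) = 0 := by
    push_cast
    linear_combination q2 - q3 + (a * b - b * b) * hc'
  rcases mul_eq_zero.1 fac with t | t
  · have t1 := nd _ t (abs_lt.2 ⟨by omega, by omega⟩)
    have b0 : b = 0 := by linear_combination c * t1 - b * hc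
    subst b0
    have t2 := nd (a * c - 1) (by push_cast at q3 ⊢; linear_combination q3)
      (abs_lt.2 ⟨by omega, by omega⟩)
    have ac : a = c := by linear_combination c * t2 - a * hc
    have hcC : (c : ℂ) * c = 1 := by exact_mod_cast hc
    have w2 : 1 + w ^ 2 = 0 := by
      rw [ac] at hw2
      push_cast at hw2
      linear_combination c * hw2 - (1 + w ^ 2) * hcC
    rw [show p + 1 + 1 = p + 2 from rfl, S_rec, w2, zero_mul, zero_add] at hw1
    have cne : (p.choose (p / 2) : ℂ) ≠ 0 :=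
      Nat.cast_ne_zero.2 (Nat.choose_pos (Nat.div_le_self _ _)).ne'
    rcases mul_eq_zero.1 hw1 with z | z
    · exact hy (by rw [eq_zero_of_pow_eq_zero ((mul_eq_zero.1 z).resolve_left cne)]; simp)
    · exact hy (by rw [← sub_eq_zero.1 z]; simp)
  · have t1 := nd _ t (abs_lt.2 ⟨by omega, by omega⟩)
    have t2 : b * c = a * c + 1 := by omega
    rw [t2] at B2'
    nlinarith [sq_nonneg (a * c - 1)]

theorem result (n : ℕ)
    (h : (∃ a : ℕ, 1 ≤ a ∧ n = 2 ^ a) ∨ ∃ p : ℕ, p.Prime ∧ 24 ≤ p ∧ n = p + 1) :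
    Irreducible (P n) := by
  rcases h with ⟨a, ha, rfl⟩ | ⟨p, hp, h1, rfl⟩
  · obtain ⟨b, rfl⟩ : ∃ b, a = b + 1 := ⟨a - 1, by omega⟩
    exact two_pow b
  · exact prime_succ p hp h1

end Pool.Agent.Results.MP_9fb898_nt.Families
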